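import Mathlib
import Pool.Agent.H73G.NoThree
import Pool.Agent.H73G.Lower

/-!
# The second largest non-hitting index of `(q+1)`-sets in `PG(2, q)`, `q` odd: two-sided bounds,
# and the exact bound for sets with five points on no line with three points of the set

`(q-1)²/2 + 1 ≤ U(q) ≤ q(q-1)/2 - (q-2)/3` for all odd prime powers `q ≥ 5`, so that the distance of
`U(q)` from the maximum `q(q-1)/2` is between `(q-2)/3` and `(q-3)/2`; in particular `U(5) = 9`,
`U(7) = 19` and `U(9) = 33`. Moreover, for all `(q+1)`-sets `S` which are not arcs: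
`u_0(S) ≤ (q-1)²/2 + 1` if at least five points of `S` lie on no line with three points of `S`, and
`u_0(S) ≤ q(q-1)/2 - 2(q-3)/5` if there are at least four such points.

Lower bound: a conic in which one point is replaced by an exterior point on a secant through it.

Upper bounds. `q(q-1)/2 - u_0(S)` is the sum of the `(i-1)(i-2)/2` over the lines with `i ≥ 3` points
of `S`. Let `G` be the set of the points of `S` which are on no such line. For these, Segre's lemma of
tangents holds, and `G` is contained in a conic `C` (if `|G| ≥ 3`), whose tangents at the points of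
`G` are those of `S`. Let `o` be a point of `S` outside `C`. Then the product of the slopes of the
lines through `o` (Segre's computation, with multiplicities) shows that `G` has at most `2 t` points,
where `t` is the number of the tangents of `S` in `o`: the polynomial `N R² - b² T²`, where `N` is the
discriminant of `C` on the lines through `o`, `T` is the product over the tangents, `R` the product
over the lines with at least three points, has degree at most `2 t - 1` and vanishes at the lines
through the points of `G` other than one of them, and it is not zero. Together with the equation for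
the number of all tangents this settles the case that `S` has at least `(q-1)/2` points outside `C`.
If there are `d ≤ (q-3)/2` points outside `C`, then each of them is on at least `(q-1)/2 - d` lines
with two points of `S` on `C`.
If `|G| = 4`, then the trisecant through a point `o` of `S` which has only two tangents is tangent in
`o` to the conic of the pencil through `G` which contains `o`. Hence no trisecant has three such
points (a line is tangent to at most two conics of the pencil).
-/

set_option autoImplicit false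

namespace Pool.Agent.Results.MP_8b6d0b_co.TwoSidedBounds

open scoped LinearAlgebra.Projectivization

/-- The points of `PG(2, q)`, in homogeneous coordinates. The lines are given by the same type: the
line `l` is the set of the points `P` with `P.orthogonal l` (the dot product of the coordinate
vectors is zero). -/
abbrev PG (F : Type) [Field F] : Type := ℙ F (Fin 3 → F)

/-- the non-hitting index: the number of the lines which contain no point of `S` -/
noncomputable def u0 {F : Type} [Field F] (S : Finset (PG F)) : ℕ :=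
  Nat.card {l : PG F // ∀ P ∈ S, ¬ P.orthogonal l}

/-- `U(q)`: the maximum of the `u_0(S)` for the `(q+1)`-sets `S` with `u_0(S) < q (q - 1) / 2` -/
noncomputable def U (F : Type) [Field F] : ℕ :=
  sSup {n : ℕ | ∃ S : Finset (PG F), S.card = Nat.card F + 1 ∧ u0 S = n ∧
    2 * n < Nat.card F * (Nat.card F - 1)}

/-- `P` is a point of `S` which lies on no line with three points of `S` -/
def Free {F : Type} [Field F] (S : Finset (PG F)) (P : PG F) : Prop :=
  P ∈ S ∧ ∀ l : PG F, P.orthogonal l → {R : PG F | R ∈ S ∧ R.orthogonal l}.ncard ≤ 2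

theorem nonarc {F : Type} [Field F] [Fintype F] [DecidableEq F] (S : Finset (PG F))
    (hS : S.card = Fintype.card F + 1) (hlt : 2 * H73G.u0 S < Fintype.card F * (Fintype.card F - 1)) :
    ∃ p ∈ S, ∃ q ∈ S, ∃ r ∈ S, p ≠ q ∧ p ≠ r ∧ q ≠ r ∧
      H73G.det3 (H73G.rp p) (H73G.rp q) (H73G.rp r) = 0 := by
  have h := H73G.u0_formula S hS
  by_contra hcon
  have hz : ∑ l : PG F, H73G.ex S l = 0 := by
    apply Finset.sum_eq_zero
    intro l _
    unfold H73G.ex
    rw [if_neg]
    intro h3
    apply hcon
    unfold H73G.cn at h3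
    obtain ⟨p, hp, q, hq, r, hr, hpq, hpr, hqr⟩ := Finset.two_lt_card.mp (show 2 < _ from h3)
    obtain ⟨hp1, hp2⟩ := Finset.mem_filter.mp hp
    obtain ⟨hq1, hq2⟩ := Finset.mem_filter.mp hq
    obtain ⟨hr1, hr2⟩ := Finset.mem_filter.mp hr
    exact ⟨p, hp1, q, hq1, r, hr1, hpq, hpr, hqr, (H73G.coll_iff p q r).mpr ⟨l, hp2, hq2, hr2⟩⟩
  rw [hz, add_zero] at h
  have h1 : 1 ≤ Fintype.card F := Fintype.card_pos
  have h2 : ((Fintype.card F * (Fintype.card F - 1) : ℕ) : ℤ) =
      (Fintype.card F : ℤ) ^ 2 - Fintype.card F := by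
    rw [Nat.cast_mul, Nat.cast_sub h1]; push_cast; ring
  have h3 : ((2 * H73G.u0 S : ℕ) : ℤ) < ((Fintype.card F * (Fintype.card F - 1) : ℕ) : ℤ) := by
    exact_mod_cast hlt
  rw [h2] at h3
  push_cast at h3
  linarith

/-- Let `F` be a finite field of odd order `q`. For all `(q+1)`-sets `S` of points of `PG(2, q)` with
`u_0(S) < q (q - 1) / 2`: `u_0(S) ≤ q (q - 1) / 2 - (q - 2) / 3`; `u_0(S) ≤ q (q - 1) / 2 - 2 (q - 3) / 5`
if at least four points of `S` lie on no line with three points of `S`; and
`u_0(S) ≤ (q - 1)² / 2 + 1` if there are at least five such points. If `q ≥ 5`, then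
`(q - 1)² / 2 + 1 ≤ U(q) ≤ q (q - 1) / 2 - (q - 2) / 3`. `U(5) = 9`, `U(7) = 19` and `U(9) = 33`. -/
theorem result (F : Type) [Field F] [Finite F] (hodd : Odd (Nat.card F)) :
    (∀ S : Finset (PG F), S.card = Nat.card F + 1 →
      2 * u0 S < Nat.card F * (Nat.card F - 1) →
      6 * u0 S + 2 * (Nat.card F - 2) ≤ 3 * (Nat.card F * (Nat.card F - 1)) ∧
      (4 ≤ {P : PG F | Free S P}.ncard →
        10 * u0 S + 4 * (Nat.card F - 3) ≤ 5 * (Nat.card F * (Nat.card F - 1))) ∧
      (5 ≤ {P : PG F | Free S P}.ncard → 2 * u0 S ≤ (Nat.card F - 1) ^ 2 + 2)) ∧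
    (5 ≤ Nat.card F →
      (Nat.card F - 1) ^ 2 + 2 ≤ 2 * U F ∧
      6 * U F + 2 * (Nat.card F - 2) ≤ 3 * (Nat.card F * (Nat.card F - 1))) ∧
    (Nat.card F = 5 → U F = 9) ∧
    (Nat.card F = 7 → U F = 19) ∧
    (Nat.card F = 9 → U F = 33) := by
  classical
  have : Fintype F := Fintype.ofFinite F
  simp only [Nat.card_eq_fintype_card] at hodd ⊢
  have hu0 : ∀ S : Finset (PG F), u0 S = H73G.u0 S := fun S => rfl
  have h1q : 1 < Fintype.card F := Fintype.one_lt_card
  have h3q : 3 ≤ Fintype.card F := by
    obtain ⟨m, hm⟩ := hodd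
    omega
  have h2q : 2 ≤ Fintype.card F := by omega
  have h2 : (2 : F) ≠ 0 := by
    intro h0
    have hch : ringChar F = 2 := by
      have hd : ringChar F ∣ 2 := (ringChar.spec F 2).mp (by exact_mod_cast h0)
      have hne : ringChar F ≠ 1 := CharP.ringChar_ne_one
      exact ((Nat.dvd_prime Nat.prime_two).mp hd).resolve_left hne
    have := FiniteField.even_card_of_char_two hch
    rw [Nat.odd_iff] at hodd
    omega
  have hc1 : ((Fintype.card F * (Fintype.card F - 1) : ℕ) : ℤ) =
      (Fintype.card F : ℤ) ^ 2 - Fintype.card F := by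
    rw [Nat.cast_mul, Nat.cast_sub h1q.le]; push_cast; ring
  have hA : ∀ S : Finset (PG F), S.card = Fintype.card F + 1 →
      2 * u0 S < Fintype.card F * (Fintype.card F - 1) →
      6 * u0 S + 2 * (Fintype.card F - 2) ≤ 3 * (Fintype.card F * (Fintype.card F - 1)) ∧
      (4 ≤ {P : PG F | Free S P}.ncard →
        10 * u0 S + 4 * (Fintype.card F - 3) ≤ 5 * (Fintype.card F * (Fintype.card F - 1))) ∧
      (5 ≤ {P : PG F | Free S P}.ncard → 2 * u0 S ≤ (Fintype.card F - 1) ^ 2 + 2) := by
    intro S hS hlt
    rw [hu0] at hlt ⊢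
    obtain ⟨p, hp, q, hq, r, hr, hpq, hpr, hqr, h0⟩ := nonarc S hS hlt
    have hf := H73G.u0_formula S hS
    set G := S.filter (fun P => H73G.Good S H73G.rp P) with hG
    have hGm : ∀ P, P ∈ G ↔ H73G.Good S H73G.rp P := by
      intro P
      rw [hG, Finset.mem_filter]
      exact ⟨fun h => h.2, fun h => ⟨h.1, h⟩⟩
    have hsub : {P : PG F | Free S P} ⊆ (G : Set (PG F)) := by
      intro P hP
      rw [Finset.mem_coe, hGm]
      refine ⟨hP.1, ?_⟩
      intro R hR T hT hRP hTP hRT hdet
      obtain ⟨l, l1, l2, l3⟩ := (H73G.coll_iff P R T).mp hdet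
      have hle := hP.2 l l1
      have hfin : {R : PG F | R ∈ S ∧ R.orthogonal l} =
          ((S.filter (fun R => R.orthogonal l) : Finset (PG F)) : Set (PG F)) := by
        ext R
        simp
      rw [hfin, Set.ncard_coe_finset] at hle
      have h3 : 2 < (S.filter (fun R => R.orthogonal l)).card := by
        rw [Finset.two_lt_card]
        exact ⟨P, Finset.mem_filter.mpr ⟨hP.1, l1⟩, R, Finset.mem_filter.mpr ⟨hR, l2⟩, T,
          Finset.mem_filter.mpr ⟨hT, l3⟩, hRP.symm, hTP.symm, hRT⟩
      omega
    have hGc : {P : PG F | Free S P}.ncard ≤ G.card := by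
      have := Set.ncard_le_ncard hsub (Finset.finite_toSet G)
      rwa [Set.ncard_coe_finset] at this
    have hex0 : 0 ≤ ∑ l : PG F, H73G.ex S l := Finset.sum_nonneg (fun l _ => H73G.ex_nonneg S l)
    have h3z : (3 : ℤ) ≤ Fintype.card F := by exact_mod_cast h3q
    refine ⟨?_, ?_, ?_⟩
    · have hup := H73G.upper2 h2 hodd S hS hp hq hr hpq hpr hqr h0
      have h5 : ((6 * H73G.u0 S + 2 * (Fintype.card F - 2) : ℕ) : ℤ) ≤
          ((3 * (Fintype.card F * (Fintype.card F - 1)) : ℕ) : ℤ) := by
        rw [Nat.cast_mul 3, hc1]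
        push_cast [Nat.cast_sub h2q]
        linarith
      exact_mod_cast h5
    · intro h4
      have h6 : 4 * ((Fintype.card F : ℤ) - 3) ≤ 5 * ∑ l : PG F, H73G.ex S l := by
        by_cases h5 : 5 ≤ G.card
        · have := H73G.five h2 S hS hp hq hr hpq hpr hqr h0 G hGm h5
          linarith
        · have h7 := H73G.fourgood h2 S hS G hGm (by omega)
          have h8 : (G.card : ℤ) = 4 := by
            have : G.card = 4 := by omega
            exact_mod_cast this
          rw [h8] at h7
          linarith
      have h9 : ((10 * H73G.u0 S + 4 * (Fintype.card F - 3) : ℕ) : ℤ) ≤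
          ((5 * (Fintype.card F * (Fintype.card F - 1)) : ℕ) : ℤ) := by
        rw [Nat.cast_mul 5, hc1]
        push_cast [Nat.cast_sub h3q]
        linarith
      exact_mod_cast h9
    · intro h5
      have hfive := H73G.five h2 S hS hp hq hr hpq hpr hqr h0 G hGm (by omega)
      have h6 : ((2 * H73G.u0 S : ℕ) : ℤ) ≤ (((Fintype.card F - 1) ^ 2 + 2 : ℕ) : ℤ) := by
        push_cast [Nat.cast_sub h1q.le]
        linarith
      exact_mod_cast h6
  have hB : 5 ≤ Fintype.card F →
      (Fintype.card F - 1) ^ 2 + 2 ≤ 2 * U F ∧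
      6 * U F + 2 * (Fintype.card F - 2) ≤ 3 * (Fintype.card F * (Fintype.card F - 1)) := by
    intro h5
    set W := {n : ℕ | ∃ S : Finset (PG F), S.card = Fintype.card F + 1 ∧ u0 S = n ∧
      2 * n < Fintype.card F * (Fintype.card F - 1)} with hW
    have hUW : U F = sSup W := by
      unfold U
      rw [Nat.card_eq_fintype_card]
    have hbdd : BddAbove W := ⟨Fintype.card F * (Fintype.card F - 1), by
      rintro n ⟨S, _, _, h⟩
      omega⟩
    have hlo := H73G.lo_u0 (F := F) h2
    have hmem : H73G.u0 (H73G.lo F) ∈ W := by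
      refine ⟨H73G.lo F, H73G.lo_card, rfl, ?_⟩
      rw [hlo]
      obtain ⟨k, hk⟩ : ∃ k, Fintype.card F = k + 5 := ⟨Fintype.card F - 5, by omega⟩
      rw [hk]
      have : k + 5 - 1 = k + 4 := by omega
      rw [this]
      nlinarith
    have hle := le_csSup hbdd hmem
    have hsm : sSup W ∈ W := Nat.sSup_mem ⟨_, hmem⟩ hbdd
    rw [hUW]
    refine ⟨?_, ?_⟩
    · rw [← hlo]; omega
    · obtain ⟨S, hS, hSu, hSlt⟩ := hsm
      rw [← hSu]
      rw [← hSu] at hSlt
      exact (hA S hS hSlt).1
  refine ⟨hA, hB, ?_, ?_, ?_⟩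
  · intro hq
    have := hB (by omega)
    rw [hq] at this
    omega
  · intro hq
    have := hB (by omega)
    rw [hq] at this
    omega
  · intro hq
    have := hB (by omega)
    rw [hq] at this
    omega

end Pool.Agent.Results.MP_8b6d0b_co.TwoSidedBounds
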